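import Pool.Agent.H775.Fin23

/-!
Every triangulation of real projective 5-space has at least 24 vertices.
-/

set_option autoImplicit false

namespace Pool.Agent.Results.MP_21a6c3_gt.RP5needs24

/-- A geometric simplicial complex in a Euclidean space, with finitely many vertices, whose
underlying space is homeomorphic to the 5-sphere with antipodal points identified has at least
24 vertices. -/
theorem result (n : ℕ) (K : Geometry.SimplicialComplex ℝ (EuclideanSpace ℝ (Fin n)))
    (hK : K.vertices.Finite)
    (h : Nonempty (K.space ≃ₜ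
      Quot (fun x y : Metric.sphere (0 : EuclideanSpace ℝ (Fin 6)) 1 =>
        (x : EuclideanSpace ℝ (Fin 6)) = (y : EuclideanSpace ℝ (Fin 6)) ∨
        (x : EuclideanSpace ℝ (Fin 6)) = -(y : EuclideanSpace ℝ (Fin 6))))) :
    24 ≤ K.vertices.ncard :=
  Pool.Agent.H775.final_of
    (fun _ _ _ _ _ _ hA hc hy hs => Pool.Agent.H775.main46 hA hc hy hs) K hK h

end Pool.Agent.Results.MP_21a6c3_gt.RP5needs24
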